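import Mathlib

/-!
# Permuted expansions need not come from a permuted Schauder basis

A separable Hilbert space carries a minimal sequence such that every vector has, after a
permutation depending on the vector, a convergent expansion with unique coefficients,
although no permutation of the sequence is a Schauder basis.
-/

open Filter Topology Finset

namespace Pool.Agent.Results.MP_514f39_an.PermutedExpansions

section Defs

variable (𝕜 : Type*) [RCLike 𝕜] {E : Type*} [NormedAddCommGroup E] [NormedSpace 𝕜 E]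

/-- `v = ∑ i, α (σ i) • x (σ i)`, convergence of the partial sums in norm. -/
def ExpandsAlong (x : ℕ → E) (σ : Equiv.Perm ℕ) (α : ℕ → 𝕜) (v : E) : Prop :=
  Tendsto (fun n : ℕ => ∑ i ∈ range n, α (σ i) • x (σ i)) atTop (𝓝 v)

/-- Property (U): every vector has a permuted expansion, and its scalar sequence is the same
for all permuted expansions of that vector. -/
def PropertyU (x : ℕ → E) : Prop :=
  ∀ v : E, ∃ α : ℕ → 𝕜, (∃ σ : Equiv.Perm ℕ, ExpandsAlong 𝕜 x σ α v) ∧
    ∀ (β : ℕ → 𝕜) (π : Equiv.Perm ℕ), ExpandsAlong 𝕜 x π β v → β = α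

/-- Schauder basis: every vector is the sum of exactly one series `∑ i, α i • x i`. -/
def IsSchauderBasis (x : ℕ → E) : Prop :=
  ∀ v : E, ∃! α : ℕ → 𝕜, Tendsto (fun n : ℕ => ∑ i ∈ range n, α i • x i) atTop (𝓝 v)

/-- Minimal sequence: no `x m` lies in the closed linear span of the other terms. -/
def IsMinimalSequence (x : ℕ → E) : Prop :=
  ∀ m : ℕ, x m ∉ (Submodule.span 𝕜 (x '' {n | n ≠ m})).topologicalClosure

end Defs

section Greedy

variable {𝕜 : Type*} [RCLike 𝕜] {V : Type*} [NormedAddCommGroup V] [InnerProductSpace 𝕜 V]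

lemma exists_step (𝕜 : Type*) [RCLike 𝕜] {V : Type*} [NormedAddCommGroup V]
    [InnerProductSpace 𝕜 V] (N : ℕ) (a : Fin (N + 1) → V) (S : V) (W : ℝ)
    (hS : ‖S‖ ^ 2 ≤ W) (hW : ‖S + ∑ i, a i‖ ^ 2 + ∑ i, ‖a i‖ ^ 2 ≤ W) :
    ∃ p, ‖S + a p‖ ^ 2 ≤ W := by
  by_contra hcon
  push Not at hcon
  have h1 : ∑ p : Fin (N + 1), W < ∑ p, ‖S + a p‖ ^ 2 :=
    Finset.sum_lt_sum_of_nonempty ⟨0, Finset.mem_univ _⟩ (fun p _ => hcon p)
  have h2 : ∀ p, ‖S + a p‖ ^ 2 = ‖S‖ ^ 2 + 2 * RCLike.re (inner 𝕜 S (a p)) + ‖a p‖ ^ 2 :=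
    fun p => norm_add_sq (𝕜 := 𝕜) S (a p)
  have h3 : ‖S + ∑ i, a i‖ ^ 2 = ‖S‖ ^ 2 + 2 * RCLike.re (inner 𝕜 S (∑ i, a i))
      + ‖∑ i, a i‖ ^ 2 := norm_add_sq (𝕜 := 𝕜) S _
  have h4 : RCLike.re (inner 𝕜 S (∑ i, a i)) = ∑ i, RCLike.re (inner 𝕜 S (a i)) := by
    rw [inner_sum, map_sum]
  have h5 : ∑ p, ‖S + a p‖ ^ 2 = (N + 1) * ‖S‖ ^ 2 + 2 * RCLike.re (inner 𝕜 S (∑ i, a i))
      + ∑ i, ‖a i‖ ^ 2 := by
    simp_rw [h2]
    rw [Finset.sum_add_distrib, Finset.sum_add_distrib, ← Finset.mul_sum, h4]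
    simp
  have h6 : ∑ p : Fin (N + 1), W = (N + 1) * W := by simp
  have h7 : 0 ≤ ‖∑ i, a i‖ ^ 2 := by positivity
  have h8 : (N : ℝ) * ‖S‖ ^ 2 ≤ N * W := by gcongr
  rw [h5, h6] at h1
  nlinarith

lemma good_order (𝕜 : Type*) [RCLike 𝕜] {V : Type*} [NormedAddCommGroup V]
    [InnerProductSpace 𝕜 V] (N : ℕ) : ∀ (a : Fin N → V) (S : V) (W : ℝ),
    ‖S‖ ^ 2 ≤ W → ‖S + ∑ i, a i‖ ^ 2 + ∑ i, ‖a i‖ ^ 2 ≤ W →
    ∃ ρ : Equiv.Perm (Fin N), ∀ m : ℕ,
      ‖S + ∑ i : Fin N, (if i.val < m then a (ρ i) else 0)‖ ^ 2 ≤ W := by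
  induction N with
  | zero =>
    intro a S W hS hW
    exact ⟨1, fun m => by simpa using hS⟩
  | succ N ih =>
    intro a S W hS hW
    obtain ⟨p, hp⟩ := exists_step 𝕜 N a S W hS hW
    have hsum : ∑ i : Fin (N + 1), a i = a p + ∑ i : Fin N, a (Equiv.swap 0 p i.succ) := by
      have h := Equiv.sum_comp (Equiv.swap 0 p) a
      rw [← h, Fin.sum_univ_succ, Equiv.swap_apply_left]
    have hsq : ∑ i : Fin (N + 1), ‖a i‖ ^ 2
        = ‖a p‖ ^ 2 + ∑ i : Fin N, ‖a (Equiv.swap 0 p i.succ)‖ ^ 2 := by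
      have h := Equiv.sum_comp (Equiv.swap 0 p) (fun i => ‖a i‖ ^ 2)
      rw [← h, Fin.sum_univ_succ, Equiv.swap_apply_left]
    obtain ⟨ρ, hρ⟩ := ih (fun i => a (Equiv.swap 0 p i.succ)) (S + a p) W hp (by
      rw [hsum, hsq, ← add_assoc S] at hW
      have : 0 ≤ ‖a p‖ ^ 2 := by positivity
      linarith)
    refine ⟨Equiv.Perm.decomposeFin.symm (p, ρ), fun m => ?_⟩
    rcases m with _ | m
    · simpa using hS
    · rw [Fin.sum_univ_succ]
      have h := hρ m
      simp only [Equiv.Perm.decomposeFin_symm_apply_zero,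
        Equiv.Perm.decomposeFin_symm_apply_succ, Fin.val_succ, Fin.val_zero,
        Nat.zero_lt_succ, if_true, add_lt_add_iff_right]
      rw [← add_assoc]
      exact h

end Greedy

section Block

variable (𝕜 : Type*) [RCLike 𝕜]

/-- The block of dimension `N`: vectors `(a, s)` with `s = ∑ i, a i`, with the Hilbert norm. -/
def block (N : ℕ) : Submodule 𝕜 (EuclideanSpace 𝕜 (Option (Fin N))) where
  carrier := {w | w none = ∑ i, w (some i)}
  add_mem' := by
    intro a b ha hb
    simp only [Set.mem_ofPred_eq] at ha hb ⊢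
    simp [ha, hb, Finset.sum_add_distrib]
  zero_mem' := by simp
  smul_mem' := by
    intro c a ha
    simp only [Set.mem_ofPred_eq] at ha ⊢
    simp [ha, Finset.mul_sum]

variable {𝕜}

/-- The vector of the block with the coordinates `a`. -/
def mk {N : ℕ} (a : Fin N → 𝕜) : block 𝕜 N :=
  ⟨WithLp.toLp 2 (fun o : Option (Fin N) => o.elim (∑ i, a i) a), by
    simp [block]⟩

lemma mk_some {N : ℕ} (a : Fin N → 𝕜) (i : Fin N) :
    (mk a : EuclideanSpace 𝕜 (Option (Fin N))) (some i) = a i := rfl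

lemma mk_none {N : ℕ} (a : Fin N → 𝕜) :
    (mk a : EuclideanSpace 𝕜 (Option (Fin N))) none = ∑ i, a i := rfl

lemma block_ext {N : ℕ} {v w : block 𝕜 N}
    (h : ∀ i, (v : EuclideanSpace 𝕜 (Option (Fin N))) (some i)
      = (w : EuclideanSpace 𝕜 (Option (Fin N))) (some i)) : v = w := by
  apply Subtype.ext
  ext o
  rcases o with _ | i
  · have hv : (v : EuclideanSpace 𝕜 (Option (Fin N))) none
        = ∑ i, (v : EuclideanSpace 𝕜 (Option (Fin N))) (some i) := v.2
    have hw : (w : EuclideanSpace 𝕜 (Option (Fin N))) none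
        = ∑ i, (w : EuclideanSpace 𝕜 (Option (Fin N))) (some i) := w.2
    rw [hv, hw]
    exact Finset.sum_congr rfl (fun i _ => h i)
  · exact h i

lemma norm_sq_mk {N : ℕ} (a : Fin N → 𝕜) :
    ‖mk a‖ ^ 2 = ‖∑ i, a i‖ ^ 2 + ∑ i, ‖a i‖ ^ 2 := by
  have h : ‖mk a‖ ^ 2 = ‖(mk a : EuclideanSpace 𝕜 (Option (Fin N)))‖ ^ 2 := rfl
  rw [h, EuclideanSpace.norm_sq_eq, Fintype.sum_option]
  rfl

/-- Coordinates of a vector of the block. -/
def crd {N : ℕ} (v : block 𝕜 N) (i : Fin N) : 𝕜 :=
  (v : EuclideanSpace 𝕜 (Option (Fin N))) (some i)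

lemma mk_crd {N : ℕ} (v : block 𝕜 N) : mk (crd v) = v := block_ext (fun _ => rfl)

lemma mk_add {N : ℕ} (a b : Fin N → 𝕜) : mk (a + b) = mk a + mk b :=
  block_ext (fun _ => rfl)

lemma mk_smul {N : ℕ} (c : 𝕜) (a : Fin N → 𝕜) : mk (c • a) = c • mk a :=
  block_ext (fun _ => rfl)

/-- `mk` as a linear map. -/
def mkL (N : ℕ) : (Fin N → 𝕜) →ₗ[𝕜] block 𝕜 N where
  toFun := mk
  map_add' := mk_add
  map_smul' := mk_smul

/-- The coordinate functional of a block. -/
noncomputable def crdL (N : ℕ) (i : Fin N) : block 𝕜 N →L[𝕜] 𝕜 :=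
  (EuclideanSpace.proj (𝕜 := 𝕜) (some i)).comp (Submodule.subtypeL _)

/-- The total functional of a block. -/
noncomputable def totL (N : ℕ) : block 𝕜 N →L[𝕜] 𝕜 :=
  (EuclideanSpace.proj (𝕜 := 𝕜) none).comp (Submodule.subtypeL _)

lemma crdL_mk {N : ℕ} (a : Fin N → 𝕜) (i : Fin N) : crdL N i (mk a) = a i := rfl

lemma totL_mk {N : ℕ} (a : Fin N → 𝕜) : totL N (mk a) = ∑ i, a i := rfl

/-- Within a block every vector has a good order. -/
lemma block_order {N : ℕ} (a : Fin N → 𝕜) : ∃ ρ : Equiv.Perm (Fin N), ∀ m : ℕ,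
    ‖∑ i : Fin N, (if i.val < m then a (ρ i) • mk (Pi.single (ρ i) (1 : 𝕜)) else 0)‖
      ≤ 2 * ‖mk a‖ := by
  obtain ⟨ρ, hρ⟩ := good_order 𝕜 N a 0 (‖mk a‖ ^ 2) (by simp)
    (by rw [norm_sq_mk, zero_add])
  refine ⟨ρ, fun m => ?_⟩
  set b : Fin N → 𝕜 := fun j => if (ρ.symm j).val < m then a j else 0 with hb
  have h1 : ∑ i : Fin N, (if i.val < m then a (ρ i) • mk (Pi.single (ρ i) (1 : 𝕜)) else 0)
      = mk b := by
    have h2 : b = ∑ j, b j • (Pi.single j (1 : 𝕜) : Fin N → 𝕜) := by
      ext i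
      simp [Pi.single_apply]
    have h3 : mk b = ∑ j, b j • mk (Pi.single j (1 : 𝕜) : Fin N → 𝕜) := by
      have := congrArg (mkL (𝕜 := 𝕜) N) h2
      rw [map_sum] at this
      simpa [mkL, mk_smul] using this
    rw [h3, ← Equiv.sum_comp ρ (fun j => b j • mk (Pi.single j (1 : 𝕜) : Fin N → 𝕜))]
    refine Finset.sum_congr rfl (fun i _ => ?_)
    by_cases h : i.val < m <;> simp [hb, h]
  rw [h1]
  have h4 : ∑ j, b j = ∑ i : Fin N, (if i.val < m then a (ρ i) else 0) := by
    rw [← Equiv.sum_comp ρ]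
    refine Finset.sum_congr rfl (fun i _ => ?_)
    simp [hb]
  have h5 : ∑ j, ‖b j‖ ^ 2 ≤ ∑ j, ‖a j‖ ^ 2 := by
    refine Finset.sum_le_sum (fun j _ => ?_)
    simp only [hb]
    split_ifs
    · exact le_rfl
    · simp
  have h6 : ‖mk b‖ ^ 2 ≤ (2 * ‖mk a‖) ^ 2 := by
    have h7 := hρ m
    rw [zero_add] at h7
    have h8 := norm_sq_mk b
    have h9 := norm_sq_mk a
    rw [h4] at h8
    nlinarith [sq_nonneg ‖∑ i, a i‖, sq_nonneg ‖mk a‖]
  exact (pow_le_pow_iff_left₀ (norm_nonneg _) (by positivity) two_ne_zero).1 h6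

end Block

section Enumeration

lemma exists_enum (N : ℕ → ℕ) (hN : ∀ k, 0 < N k) :
    ∃ e : (Σ k, Fin (N k)) ≃ ℕ, ∀ k i, e ⟨k, i⟩ = (∑ j ∈ range k, N j) + i.val := by
  set off : ℕ → ℕ := fun k => ∑ j ∈ range k, N j with hoff
  have hsucc : ∀ k, off (k + 1) = off k + N k := fun k => Finset.sum_range_succ _ _
  have hmono : Monotone off := monotone_nat_of_le_succ (fun k => by rw [hsucc]; omega)
  have hge : ∀ k, k ≤ off k := by
    intro k
    induction k with
    | zero => exact Nat.zero_le _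
    | succ k ih => rw [hsucc]; have := hN k; omega
  set f : (Σ k, Fin (N k)) → ℕ := fun p => off p.1 + p.2.val with hf
  have hinj : Function.Injective f := by
    rintro ⟨k, i⟩ ⟨l, j⟩ h
    simp only [hf] at h
    have hi := i.isLt
    have hj := j.isLt
    have hkl : k = l := by
      rcases lt_trichotomy k l with hlt | heq | hgt
      · have := hmono (Nat.succ_le_of_lt hlt)
        rw [Nat.succ_eq_add_one, hsucc] at this
        omega
      · exact heq
      · have := hmono (Nat.succ_le_of_lt hgt)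
        rw [Nat.succ_eq_add_one, hsucc] at this
        omega
    subst hkl
    have : i = j := Fin.ext (by omega)
    rw [this]
  have hsurj : Function.Surjective f := by
    intro n
    have hex : ∃ k, n < off (k + 1) := ⟨n, lt_of_lt_of_le (Nat.lt_succ_self n) (hge (n + 1))⟩
    classical
    set k := Nat.find hex with hk
    have h1 : n < off (k + 1) := Nat.find_spec hex
    have h2 : off k ≤ n := by
      rcases Nat.eq_zero_or_pos k with h0 | hpos
      · rw [h0]; simp [hoff]
      · by_contra hlt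
        push Not at hlt
        have h3 : ¬ n < off ((k - 1) + 1) := Nat.find_min hex (by omega)
        rw [Nat.sub_add_cancel hpos] at h3
        exact h3 hlt
    rw [hsucc] at h1
    refine ⟨⟨k, ⟨n - off k, by omega⟩⟩, ?_⟩
    simp only [hf]
    omega
  exact ⟨Equiv.ofBijective f ⟨hinj, hsurj⟩, fun k i => rfl⟩

/-- Sum over an initial segment of the enumeration: full blocks and a piece of a block. -/
lemma sum_enum {M : Type*} [AddCommMonoid M] (N : ℕ → ℕ) (e : (Σ k, Fin (N k)) ≃ ℕ)
    (he : ∀ k i, e ⟨k, i⟩ = (∑ j ∈ range k, N j) + i.val) (F : (Σ k, Fin (N k)) → M)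
    (K r : ℕ) (hr : r ≤ N K) :
    ∑ n ∈ range ((∑ j ∈ range K, N j) + r), F (e.symm n)
      = (∑ k ∈ range K, ∑ i : Fin (N k), F ⟨k, i⟩)
        + ∑ i : Fin (N K), (if i.val < r then F ⟨K, i⟩ else 0) := by
  have hpiece : ∀ (K r : ℕ), r ≤ N K →
      ∑ x ∈ range r, F (e.symm ((∑ j ∈ range K, N j) + x))
        = ∑ i : Fin (N K), (if i.val < r then F ⟨K, i⟩ else 0) := by
    intro K r hr
    have h1 : ∀ i : Fin (N K), F ⟨K, i⟩ = F (e.symm ((∑ j ∈ range K, N j) + i.val)) := by
      intro i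
      rw [← he K i, Equiv.symm_apply_apply]
    simp_rw [h1]
    rw [Fin.sum_univ_eq_sum_range
      (fun x => if x < r then F (e.symm ((∑ j ∈ range K, N j) + x)) else 0) (N K)]
    rw [← Finset.sum_filter]
    congr 1
    ext x
    simp only [Finset.mem_filter, Finset.mem_range]
    omega
  rw [Finset.sum_range_add, hpiece K r hr]
  congr 1
  clear hr
  induction K with
  | zero => simp
  | succ K ih =>
    rw [Finset.sum_range_succ (fun k => N k) K, Finset.sum_range_add, ih,
      Finset.sum_range_succ _ K, hpiece K (N K) le_rfl]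
    congr 1
    refine Finset.sum_congr rfl (fun i _ => ?_)
    rw [if_pos i.isLt]

end Enumeration

section Main

variable (𝕜 : Type*) [RCLike 𝕜]

/-- Block sizes. -/
def size (k : ℕ) : ℕ := 2 * 4 ^ k

lemma size_pos (k : ℕ) : 0 < size k := by unfold size; positivity

/-- The Hilbert sum of the blocks. -/
abbrev Space : Type _ := lp (fun k : ℕ => block 𝕜 (size k)) 2

variable {𝕜}

/-- The vectors of the system, indexed by the block and the place in the block. -/
noncomputable def X (p : Σ k, Fin (size k)) : Space 𝕜 :=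
  lp.single 2 p.1 (mk (Pi.single p.2 (1 : 𝕜)))

/-- Coordinate functionals. -/
noncomputable def coordinate (p : Σ k, Fin (size k)) : Space 𝕜 →L[𝕜] 𝕜 :=
  (crdL _ p.2).comp (lp.evalCLM 𝕜 (fun k : ℕ => block 𝕜 (size k)) 2 p.1)

/-- Total functionals of the blocks. -/
noncomputable def total (k : ℕ) : Space 𝕜 →L[𝕜] 𝕜 :=
  (totL _).comp (lp.evalCLM 𝕜 (fun k : ℕ => block 𝕜 (size k)) 2 k)

lemma coordinate_apply (p : Σ k, Fin (size k)) (v : Space 𝕜) :
    coordinate p v = crd (v p.1) p.2 := rfl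

lemma total_apply (k : ℕ) (v : Space 𝕜) :
    total k v = totL (size k) (v k) := rfl

lemma coordinate_X (p q : Σ k, Fin (size k)) :
    coordinate p (X q : Space 𝕜) = if p = q then 1 else 0 := by
  obtain ⟨k, i⟩ := p
  obtain ⟨l, j⟩ := q
  rw [coordinate_apply]
  unfold X
  by_cases hkl : k = l
  · subst hkl
    rw [lp.single_apply_self]
    have h : crd (mk (Pi.single j (1 : 𝕜))) i = (Pi.single j (1 : 𝕜) : Fin (size k) → 𝕜) i := rfl
    simp only at h ⊢
    rw [h]
    by_cases hij : i = j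
    · subst hij; simp
    · rw [Pi.single_eq_of_ne hij, if_neg]
      intro h
      apply hij
      simpa using h
  · rw [lp.single_apply_ne _ _ _ hkl, if_neg]
    · rfl
    · intro h
      apply hkl
      exact congrArg Sigma.fst h

lemma total_X (k : ℕ) (q : Σ k, Fin (size k)) :
    total k (X q : Space 𝕜) = if q.1 = k then 1 else 0 := by
  obtain ⟨l, j⟩ := q
  rw [total_apply]
  unfold X
  by_cases hkl : k = l
  · subst hkl
    rw [lp.single_apply_self, if_pos rfl]
    change totL (size k) (mk (Pi.single j (1 : 𝕜))) = 1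
    rw [totL_mk]
    simp
  · rw [lp.single_apply_ne _ _ _ hkl, if_neg (fun h => hkl h.symm), map_zero]

lemma total_bound (k : ℕ) (v : Space 𝕜) : ‖total k v‖ ≤ ‖v‖ := by
  rw [total_apply]
  have h1 : ‖v k‖ ≤ ‖v‖ := lp.norm_apply_le_norm (by norm_num) v k
  have h2 : ‖totL (size k) (v k)‖ ≤ ‖v k‖ := by
    have h3 := norm_sq_mk (crd (v k))
    rw [mk_crd] at h3
    have h4 : totL (size k) (v k) = ∑ i, crd (v k) i := by
      conv_lhs => rw [← mk_crd (v k)]
      rfl
    rw [h4]
    have h5 : 0 ≤ ∑ i, ‖crd (v k) i‖ ^ 2 := Finset.sum_nonneg (fun i _ => by positivity)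
    exact (pow_le_pow_iff_left₀ (norm_nonneg _) (norm_nonneg _) two_ne_zero).1 (by linarith)
  linarith

lemma coeff_eq (e : (Σ k, Fin (size k)) ≃ ℕ) (v : Space 𝕜) (β : ℕ → 𝕜) (π : Equiv.Perm ℕ)
    (h : Tendsto (fun n : ℕ => ∑ i ∈ range n, β (π i) • (X (e.symm (π i)) : Space 𝕜))
      atTop (𝓝 v)) (m : ℕ) : β m = coordinate (e.symm m) v := by
  have h1 := ((coordinate (𝕜 := 𝕜) (e.symm m)).continuous.tendsto v).comp h
  have h2 : Tendsto (fun _ : ℕ => β m) atTop (𝓝 (coordinate (e.symm m) v)) := by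
    refine h1.congr' ?_
    filter_upwards [eventually_gt_atTop (π.symm m)] with n hn
    simp only [Function.comp_apply, map_sum, map_smul, coordinate_X, smul_eq_mul]
    rw [Finset.sum_eq_single (π.symm m)]
    · simp
    · intro b _ hb
      rw [if_neg]
      · simp
      · intro hcon
        apply hb
        rw [e.symm.injective hcon]
        simp
    · intro hcon
      exact absurd (Finset.mem_range.2 hn) hcon
  exact tendsto_nhds_unique tendsto_const_nhds h2

lemma expands (e : (Σ k, Fin (size k)) ≃ ℕ)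
    (he : ∀ k i, e ⟨k, i⟩ = (∑ j ∈ range k, size j) + i.val) (v : Space 𝕜) :
    ∃ σ : Equiv.Perm ℕ, ExpandsAlong 𝕜 (fun n => (X (e.symm n) : Space 𝕜)) σ
      (fun n => coordinate (e.symm n) v) v := by
  choose ρ hρ using fun k => block_order (crd (v k))
  set F : (Σ k, Fin (size k)) → Space 𝕜 :=
    fun p => crd (v p.1) (ρ p.1 p.2) • (X ⟨p.1, ρ p.1 p.2⟩ : Space 𝕜) with hF
  refine ⟨e.symm.trans ((Equiv.sigmaCongrRight ρ).trans e), ?_⟩
  have hterm : ∀ n : ℕ,
      (coordinate (e.symm ((e.symm.trans ((Equiv.sigmaCongrRight ρ).trans e)) n)) v : 𝕜)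
        • (X (e.symm ((e.symm.trans ((Equiv.sigmaCongrRight ρ).trans e)) n)) : Space 𝕜)
      = F (e.symm n) := by
    intro n
    simp only [Equiv.trans_apply, Equiv.symm_apply_apply, Equiv.sigmaCongrRight_apply,
      coordinate_apply, hF]
  have hblock : ∀ k, ∑ i : Fin (size k), F ⟨k, i⟩ = lp.single 2 k (v k) := by
    intro k
    simp only [hF]
    rw [Equiv.sum_comp (ρ k) (fun j => crd (v k) j • (X ⟨k, j⟩ : Space 𝕜))]
    unfold X
    simp only
    have h1 : v k = ∑ j, crd (v k) j • mk (Pi.single j (1 : 𝕜)) := by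
      apply block_ext
      intro i
      have h2 : (mk (crd (v k)) : EuclideanSpace 𝕜 (Option (Fin (size k)))) (some i)
        = crd (v k) i := rfl
      rw [mk_crd] at h2
      rw [h2]
      have h3 : ∀ w : block 𝕜 (size k),
        (w : EuclideanSpace 𝕜 (Option (Fin (size k)))) (some i) = crdL (size k) i w :=
        fun w => rfl
      rw [h3, map_sum]
      simp only [map_smul, crdL_mk, smul_eq_mul]
      simp [Pi.single_apply]
    have h4 : ∀ j, crd (v k) j • lp.single 2 k (mk (Pi.single j (1 : 𝕜)))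
        = (lp.single 2 k (crd (v k) j • mk (Pi.single j (1 : 𝕜))) : Space 𝕜) := by
      intro j
      exact (lp.single_smul (E := fun k : ℕ => block 𝕜 (size k)) 2 k _ _).symm
    rw [Finset.sum_congr rfl (fun j _ => h4 j)]
    conv_rhs => rw [h1]
    exact (map_sum (lp.singleAddMonoidHom (E := fun k : ℕ => block 𝕜 (size k)) 2 k) _ _).symm
  have hpart : ∀ k r, ‖∑ i : Fin (size k), (if i.val < r then F ⟨k, i⟩ else 0)‖
      ≤ 2 * ‖v k‖ := by
    intro k r
    have h1 : ∑ i : Fin (size k), (if i.val < r then F ⟨k, i⟩ else 0)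
        = lp.single 2 k (∑ i : Fin (size k),
          (if i.val < r then crd (v k) (ρ k i) • mk (Pi.single (ρ k i) (1 : 𝕜)) else 0)) := by
      have h2 := map_sum (lp.singleAddMonoidHom (E := fun k : ℕ => block 𝕜 (size k)) 2 k)
        (fun i : Fin (size k) =>
          (if i.val < r then crd (v k) (ρ k i) • mk (Pi.single (ρ k i) (1 : 𝕜)) else 0))
        Finset.univ
      refine Eq.trans ?_ h2.symm
      refine Finset.sum_congr rfl (fun i _ => ?_)
      by_cases hi : i.val < r
      · simp only [hi, if_true, hF]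
        exact (lp.single_smul (E := fun k : ℕ => block 𝕜 (size k)) 2 k _ _).symm
      · simp only [hi, if_false]
        exact (map_zero _).symm
    rw [h1, lp.norm_single (by norm_num)]
    have h3 := hρ k r
    rwa [mk_crd] at h3
  have hsum : Tendsto (fun K : ℕ => ∑ k ∈ range K, (lp.single 2 k (v k) : Space 𝕜))
      atTop (𝓝 v) := (lp.hasSum_single (by norm_num) v).tendsto_sum_nat
  have hzero : Tendsto (fun k : ℕ => 2 * ‖v k‖) atTop (𝓝 0) := by
    have h1 := (lp.hasSum_single (E := fun k : ℕ => block 𝕜 (size k)) (p := 2)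
      (by norm_num) v).summable.tendsto_atTop_zero.norm
    rw [norm_zero] at h1
    have h2 : ∀ k, ‖(lp.single 2 k (v k) : Space 𝕜)‖ = ‖v k‖ :=
      fun k => lp.norm_single (by norm_num) k _
    simp only [h2] at h1
    simpa using h1.const_mul 2
  have hK : Tendsto (fun n : ℕ => (e.symm n).1) atTop atTop := by
    rw [tendsto_atTop]
    intro K
    filter_upwards [eventually_ge_atTop (∑ j ∈ range K, size j)] with n hn
    by_contra hlt
    push Not at hlt
    have h1 : n = (∑ j ∈ range (e.symm n).1, size j) + (e.symm n).2.val := by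
      rw [← he, Sigma.eta, Equiv.apply_symm_apply]
    have h2 : (∑ j ∈ range ((e.symm n).1 + 1), size j) ≤ ∑ j ∈ range K, size j :=
      Finset.sum_le_sum_of_subset (Finset.range_mono (Nat.succ_le_of_lt hlt))
    rw [Finset.sum_range_succ] at h2
    have h3 := (e.symm n).2.isLt
    omega
  unfold ExpandsAlong
  simp only
  have hgoal : ∀ n : ℕ, ∑ i ∈ range n,
      (coordinate (e.symm ((e.symm.trans ((Equiv.sigmaCongrRight ρ).trans e)) i)) v : 𝕜)
        • (X (e.symm ((e.symm.trans ((Equiv.sigmaCongrRight ρ).trans e)) i)) : Space 𝕜)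
      = (∑ k ∈ range (e.symm n).1, (lp.single 2 k (v k) : Space 𝕜))
        + ∑ i : Fin (size (e.symm n).1),
          (if i.val < (e.symm n).2.val then F ⟨(e.symm n).1, i⟩ else 0) := by
    intro n
    simp_rw [hterm]
    have h1 : n = (∑ j ∈ range (e.symm n).1, size j) + (e.symm n).2.val := by
      rw [← he, Sigma.eta, Equiv.apply_symm_apply]
    have h2 := sum_enum size e he F (e.symm n).1 (e.symm n).2.val (e.symm n).2.isLt.le
    rw [← h1] at h2
    rw [h2]
    congr 1
    exact Finset.sum_congr rfl (fun k _ => hblock k)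
  simp_rw [hgoal]
  have h1 := hsum.comp hK
  have h2 : Tendsto (fun n : ℕ => ∑ i : Fin (size (e.symm n).1),
          (if i.val < (e.symm n).2.val then F ⟨(e.symm n).1, i⟩ else 0)) atTop (𝓝 0) := by
    refine squeeze_zero_norm (fun n => hpart _ _) (hzero.comp hK)
  simpa using h1.add h2

lemma exists_threshold {N : ℕ} (t : Fin N → ℕ) (ht : Function.Injective t) (h : ℕ) (hN : h ≤ N) :
    ∃ m : ℕ, (Finset.univ.filter (fun i => t i < m)).card = h := by
  set f : ℕ → ℕ := fun m => (Finset.univ.filter (fun i => t i < m)).card with hf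
  have hstep : ∀ m, f (m + 1) ≤ f m + 1 := by
    intro m
    have hsub : Finset.univ.filter (fun i => t i < m + 1)
        ⊆ (Finset.univ.filter (fun i => t i < m)) ∪ (Finset.univ.filter (fun i => t i = m)) := by
      intro i hi
      simp only [Finset.mem_filter, Finset.mem_univ, true_and, Finset.mem_union] at hi ⊢
      omega
    have hone : (Finset.univ.filter (fun i => t i = m)).card ≤ 1 := by
      rw [Finset.card_le_one]
      intro a ha b hb
      simp only [Finset.mem_filter, Finset.mem_univ, true_and] at ha hb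
      exact ht (ha.trans hb.symm)
    calc f (m + 1) ≤ _ := Finset.card_le_card hsub
      _ ≤ _ := Finset.card_union_le _ _
      _ ≤ f m + 1 := by simp only [hf]; omega
  have hbig : ∃ m, h ≤ f m := by
    refine ⟨(∑ i, t i) + 1, ?_⟩
    have : Finset.univ.filter (fun i => t i < (∑ i, t i) + 1) = Finset.univ := by
      refine Finset.filter_true_of_mem (fun i _ => ?_)
      exact Nat.lt_succ_of_le (Finset.single_le_sum (fun _ _ => Nat.zero_le _)
        (Finset.mem_univ i))
    simp only [hf]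
    rw [this]
    simpa using hN
  classical
  refine ⟨Nat.find hbig, le_antisymm ?_ (Nat.find_spec hbig)⟩
  rcases Nat.eq_zero_or_pos (Nat.find hbig) with h0 | hpos
  · rw [h0]; simp
  · have h1 : ¬ h ≤ f (Nat.find hbig - 1) := Nat.find_min hbig (by omega)
    have h2 := hstep (Nat.find hbig - 1)
    rw [Nat.sub_add_cancel hpos] at h2
    simp only [hf] at h1 h2 ⊢
    omega

lemma not_basis (e : (Σ k, Fin (size k)) ≃ ℕ) (τ : Equiv.Perm ℕ) :
    ¬ IsSchauderBasis 𝕜 (fun n => (X (e.symm (τ n)) : Space 𝕜)) := by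
  intro hbasis
  set t : ∀ k, Fin (size k) → ℕ := fun k i => τ.symm (e ⟨k, i⟩) with ht
  have hinj : ∀ k, Function.Injective (t k) := by
    intro k i j hij
    simp only [ht] at hij
    have h1 := e.injective (τ.symm.injective hij)
    simpa using h1
  have hex : ∀ k, ∃ m : ℕ, (Finset.univ.filter (fun i => t k i < m)).card = 4 ^ k :=
    fun k => exists_threshold (t k) (hinj k) _ (by unfold size; omega)
  choose m hm using hex
  have hmge : ∀ k, k ≤ m k := by
    intro k
    have h1 : (Finset.univ.filter (fun i => t k i < m k)).card ≤ (range (m k)).card := by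
      refine Finset.card_le_card_of_injOn (t k) ?_ (hinj k).injOn
      intro i hi
      simpa using hi
    rw [hm, Finset.card_range] at h1
    exact (Nat.lt_pow_self (by norm_num)).le.trans h1
  set w : ∀ k, Fin (size k) → 𝕜 :=
    fun k i => if t k i < m k then ((4 : 𝕜) ^ k)⁻¹ else - ((4 : 𝕜) ^ k)⁻¹ with hw
  have h4 : ∀ k : ℕ, ((4 : 𝕜) ^ k) ≠ 0 := fun k => pow_ne_zero _ (by norm_num)
  have hpos : ∀ k, ∑ i, (if t k i < m k then w k i else 0) = 1 := by
    intro k
    have h1 : ∀ i, (if t k i < m k then w k i else 0)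
        = if t k i < m k then ((4 : 𝕜) ^ k)⁻¹ else 0 := by
      intro i
      by_cases h : t k i < m k <;> simp [hw, h]
    simp_rw [h1]
    rw [← Finset.sum_filter, Finset.sum_const, hm, nsmul_eq_mul]
    push_cast
    exact mul_inv_cancel₀ (h4 k)
  have hsum : ∀ k, ∑ i, w k i = 0 := by
    intro k
    have hcard : (Finset.univ.filter (fun i => ¬ t k i < m k)).card = 4 ^ k := by
      have h1 : (Finset.univ.filter (fun i => t k i < m k)).card
          + (Finset.univ.filter (fun i => ¬ t k i < m k)).card = 2 * 4 ^ k := by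
        have h2 : (Finset.univ : Finset (Fin (size k))).card = 2 * 4 ^ k := by
          rw [Finset.card_univ, Fintype.card_fin]
          rfl
        rw [← h2]
        convert Finset.card_filter_add_card_filter_not
          (s := (Finset.univ : Finset (Fin (size k)))) (fun i => t k i < m k)
      rw [hm] at h1
      omega
    simp only [hw]
    rw [Finset.sum_ite, Finset.sum_const, Finset.sum_const, hm, hcard]
    simp
  have hnorm : ∀ k, ‖mk (w k)‖ ^ 2 = 2 * (1 / 4 : ℝ) ^ k := by
    intro k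
    rw [norm_sq_mk, hsum]
    have h1 : ∀ i, ‖w k i‖ ^ 2 = ((16 : ℝ) ^ k)⁻¹ := by
      intro i
      have h2 : ‖w k i‖ = ((4 : ℝ) ^ k)⁻¹ := by
        simp only [hw]
        split_ifs <;> simp
      rw [h2, inv_pow, ← pow_mul, mul_comm k 2, pow_mul]
      norm_num
    simp_rw [h1]
    rw [Finset.sum_const, Finset.card_univ, Fintype.card_fin, nsmul_eq_mul]
    unfold size
    push_cast
    have h3 : (16 : ℝ) ^ k = 4 ^ k * 4 ^ k := by rw [← mul_pow]; norm_num
    rw [h3]
    have h5 : ((4 : ℝ) ^ k) ≠ 0 := by positivity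
    field_simp
    simp
  have hmem : Memℓp (fun k => mk (w k)) (2 : ENNReal) := by
    refine memℓp_gen ?_
    have h1 : ∀ k, ‖mk (w k)‖ ^ (2 : ENNReal).toReal = 2 * (1 / 4 : ℝ) ^ k := by
      intro k
      rw [← hnorm k]
      simp
    simp_rw [h1]
    exact (summable_geometric_of_lt_one (by norm_num) (by norm_num)).mul_left 2
  set v : Space 𝕜 := ⟨fun k => mk (w k), hmem⟩ with hv
  have hvk : ∀ k, v k = mk (w k) := fun k => rfl
  obtain ⟨α, hα, -⟩ := hbasis v
  simp only at hα
  have hcoef : ∀ i, α i = coordinate (e.symm (τ i)) v := by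
    intro i
    have h1 := coeff_eq e v (fun n => α (τ.symm n)) τ (by simpa using hα) (τ i)
    simpa using h1
  have htot : ∀ k, total k (∑ i ∈ range (m k), α i • (X (e.symm (τ i)) : Space 𝕜)) = 1 := by
    intro k
    rw [← hpos k, map_sum, ← Finset.sum_filter]
    simp only [map_smul, total_X, smul_eq_mul, mul_ite, mul_one, mul_zero]
    rw [← Finset.sum_filter]
    symm
    refine Finset.sum_nbij (t k) ?_ (hinj k).injOn ?_ ?_
    · intro i hi
      simp only [Finset.mem_filter, Finset.mem_univ, true_and] at hi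
      simp [ht] at hi ⊢
      exact hi
    · intro n hn
      simp only [Finset.coe_filter, Finset.mem_range, Set.mem_ofPred_eq] at hn
      obtain ⟨hn1, hn2⟩ := hn
      subst hn2
      refine ⟨(e.symm (τ n)).2, ?_, ?_⟩
      · simpa [ht] using hn1
      · simp [ht]
    · intro i hi
      rw [hcoef]
      simp only [ht, Equiv.apply_symm_apply, Equiv.symm_apply_apply, coordinate_apply, hvk]
      rfl
  have hvtot : ∀ k, total k v = 0 := by
    intro k
    rw [total_apply, hvk, totL_mk, hsum]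
  have hlarge : ∀ k, 1 ≤ ‖(∑ i ∈ range (m k), α i • (X (e.symm (τ i)) : Space 𝕜)) - v‖ := by
    intro k
    have h1 := total_bound k ((∑ i ∈ range (m k), α i • (X (e.symm (τ i)) : Space 𝕜)) - v)
    rw [map_sub, htot, hvtot, sub_zero, norm_one] at h1
    exact h1
  rw [tendsto_iff_norm_sub_tendsto_zero] at hα
  have hev := (hα.eventually_lt_const (show (0 : ℝ) < 1 by norm_num))
  rw [eventually_atTop] at hev
  obtain ⟨n0, hn0⟩ := hev
  have h1 := hn0 (m n0) (hmge n0)
  linarith [hlarge n0]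

end Main

/-- There is a separable Hilbert space with a minimal sequence having property (U) no
permutation of which is a Schauder basis. -/
theorem result (𝕜 : Type) [RCLike 𝕜] :
    ∃ (E : Type) (_ : NormedAddCommGroup E) (_ : InnerProductSpace 𝕜 E) (_ : CompleteSpace E)
      (_ : TopologicalSpace.SeparableSpace E) (x : ℕ → E),
      PropertyU 𝕜 x ∧ IsMinimalSequence 𝕜 x ∧
        ∀ τ : Equiv.Perm ℕ, ¬ IsSchauderBasis 𝕜 (fun n => x (τ n)) := by
  obtain ⟨e, he⟩ := exists_enum size size_pos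
  have : ∀ k, CompleteSpace (block 𝕜 (size k)) := fun k => FiniteDimensional.complete 𝕜 _
  have hexp := expands (𝕜 := 𝕜) e he
  refine ⟨Space 𝕜, inferInstance, inferInstance, inferInstance, ?_,
    fun n => X (e.symm n), ?_, ?_, ?_⟩
  · have hdense : closure (Submodule.span 𝕜 (Set.range fun n => (X (e.symm n) : Space 𝕜)) :
        Set (Space 𝕜)) = Set.univ := by
      rw [Set.eq_univ_iff_forall]
      intro v
      obtain ⟨σ, hσ⟩ := hexp v
      refine mem_closure_of_tendsto hσ (Eventually.of_forall (fun n => ?_))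
      exact Submodule.sum_mem _ (fun i _ => Submodule.smul_mem _ _
        (Submodule.subset_span ⟨_, rfl⟩))
    have hsep : TopologicalSpace.IsSeparable (Set.univ : Set (Space 𝕜)) := by
      rw [← hdense]
      exact ((Set.countable_range _).isSeparable.span (R := 𝕜)).closure
    exact TopologicalSpace.isSeparable_univ_iff.1 hsep
  · intro v
    obtain ⟨σ, hσ⟩ := hexp v
    refine ⟨_, ⟨σ, hσ⟩, ?_⟩
    intro β π hβ
    funext m
    exact coeff_eq e v β π hβ m
  · intro m hmem
    have hker : (Submodule.span 𝕜 ((fun n => (X (e.symm n) : Space 𝕜)) '' {n | n ≠ m})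
        ).topologicalClosure ≤ LinearMap.ker (coordinate (𝕜 := 𝕜) (e.symm m)).toLinearMap := by
      refine Submodule.topologicalClosure_minimal _ ?_
        (ContinuousLinearMap.isClosed_ker (coordinate (𝕜 := 𝕜) (e.symm m)))
      rw [Submodule.span_le]
      rintro _ ⟨n, hn, rfl⟩
      have hn' : n ≠ m := hn
      have h1 : coordinate (e.symm m) (X (e.symm n) : Space 𝕜) = 0 := by
        rw [coordinate_X, if_neg]
        intro hcon
        exact hn' (e.symm.injective hcon).symm
      exact h1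
    have h2 := hker hmem
    have h3 : coordinate (e.symm m) (X (e.symm m) : Space 𝕜) = 0 := h2
    rw [coordinate_X, if_pos rfl] at h3
    exact one_ne_zero h3
  · intro τ
    exact not_basis e τ

end Pool.Agent.Results.MP_514f39_an.PermutedExpansions
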